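import Mathlib

/-!
# Mental programs simulate binary decision diagrams with quasi-polynomial length

Let `U` be the total relation, which has a program of length `O(|V|)`. The relation `p?; U` holds of
`(s, t)` iff `p ∈ s` and `U; p?` holds of `(s, t)` iff `p ∈ t`. With union and intersection it is
possible to say that the path of a diagram `Ω` given by `(s, t)` leads from a node `i` to a node `j`
in at most `2 ^ (k + 1)` steps: for some node `m` it leads from `i` to `m` and from `m` to `j` in at
most `2 ^ k` steps (Savitch). This gives programs of length `|V| N ^ (O(log N))`.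
-/

set_option autoImplicit false

open Filter Topology

namespace Pool.Agent.Results.MP_811ee8_lc.QuasiPolynomialTranslation

/-- Boolean formulas over `V`. -/
inductive Fml (V : Type) : Type
  | var (p : V) : Fml V
  | tru : Fml V
  | fls : Fml V
  | neg (a : Fml V) : Fml V
  | and (a b : Fml V) : Fml V
  | or (a b : Fml V) : Fml V

/-- Truth of a formula in a state. -/
def Fml.holds {V : Type} (s : Set V) : Fml V → Prop
  | Fml.var p => p ∈ s
  | Fml.tru => True
  | Fml.fls => False
  | Fml.neg a => ¬ a.holds s
  | Fml.and a b => a.holds s ∧ b.holds s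
  | Fml.or a b => a.holds s ∨ b.holds s

/-- The length of a formula (two parentheses for a binary connective). -/
def Fml.len {V : Type} : Fml V → ℕ
  | Fml.var _ => 1
  | Fml.tru => 1
  | Fml.fls => 1
  | Fml.neg a => a.len + 1
  | Fml.and a b => a.len + b.len + 3
  | Fml.or a b => a.len + b.len + 3

/-- Mental programs over `V`. -/
inductive Prog (V : Type) : Type
  | set (p : V) : Prog V
  | unset (p : V) : Prog V
  | test (b : Fml V) : Prog V
  | union (a b : Prog V) : Prog V
  | comp (a b : Prog V) : Prog V
  | inter (a b : Prog V) : Prog V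

/-- The relation denoted by a program. -/
def Prog.sem {V : Type} : Prog V → Set V → Set V → Prop
  | Prog.set p, s, t => t = s ∪ {p}
  | Prog.unset p, s, t => t = s \ {p}
  | Prog.test b, s, t => t = s ∧ b.holds s
  | Prog.union a b, s, t => a.sem s t ∨ b.sem s t
  | Prog.comp a b, s, t => ∃ u, a.sem s u ∧ b.sem u t
  | Prog.inter a b, s, t => a.sem s t ∧ b.sem s t

/-- The length of a program: its number of symbols (`p ← ⊤` has three symbols, two parentheses are
counted for each binary operation). -/
def Prog.len {V : Type} : Prog V → ℕ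
  | Prog.set _ => 3
  | Prog.unset _ => 3
  | Prog.test b => b.len + 1
  | Prog.union a b => a.len + b.len + 3
  | Prog.comp a b => a.len + b.len + 3
  | Prog.inter a b => a.len + b.len + 3

/-- Ordered binary decision diagrams over `V ∪ V'` (the variables `p ∈ V` are `Sum.inl p`, the
variables `p'` are `Sum.inr p`). A node is a terminal `⊤` or `⊥`, or it has a variable and two
successors; the variables increase along every edge for some linear order of `V ∪ V'`, given by an
injective function to the natural numbers. -/
structure BDD (V : Type) where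
  /-- the number of nodes -/
  size : ℕ
  /-- the nodes: a terminal, or `(x, l, h)` with a variable `x`, the low successor `l` and the high
  successor `h` -/
  node : Fin size → Bool ⊕ ((V ⊕ V) × Fin size × Fin size)
  /-- the root -/
  root : Fin size
  /-- the order of the variables -/
  ord : V ⊕ V → ℕ
  ord_inj : Function.Injective ord
  ordered : ∀ i x l h, node i = Sum.inr (x, l, h) →
    (∀ y l' h', node l = Sum.inr (y, l', h') → ord x < ord y) ∧
    (∀ y l' h', node h = Sum.inr (y, l', h') → ord x < ord y)

/-- The valuation of `V ∪ V'` given by a pair of states. -/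
def val {V : Type} (s t : Set V) : V ⊕ V → Prop
  | Sum.inl p => p ∈ s
  | Sum.inr p => p ∈ t

/-- The node `i` of the diagram evaluates to true. -/
inductive BDD.Accepts {V : Type} (D : BDD V) (a : V ⊕ V → Prop) : Fin D.size → Prop
  | leaf (i : Fin D.size) : D.node i = Sum.inl true → D.Accepts a i
  | low (i : Fin D.size) (x : V ⊕ V) (l h : Fin D.size) : D.node i = Sum.inr (x, l, h) →
      ¬ a x → D.Accepts a l → D.Accepts a i
  | high (i : Fin D.size) (x : V ⊕ V) (l h : Fin D.size) : D.node i = Sum.inr (x, l, h) →
      a x → D.Accepts a h → D.Accepts a i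

/-- The relation represented by a diagram. -/
def BDD.rel {V : Type} (D : BDD V) (s t : Set V) : Prop := D.Accepts (val s t) D.root

/-! ## The total relation and literals -/

section

variable {V : Type}

/-- Change the variables of a list arbitrarily. -/
def tot : List V → Prog V
  | [] => Prog.test Fml.tru
  | p :: l => Prog.comp (Prog.union (Prog.set p) (Prog.unset p)) (tot l)

theorem tot_len (l : List V) : (tot l).len = 12 * l.length + 2 := by
  induction l with
  | nil => rfl
  | cons p l ih => simp only [tot, Prog.len, ih, List.length_cons]; ring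

theorem tot_sem (l : List V) (s t : Set V) :
    (tot l).sem s t ↔ ∀ p, p ∉ l → (p ∈ s ↔ p ∈ t) := by
  induction l generalizing s with
  | nil =>
    simp only [tot, Prog.sem, Fml.holds, and_true, List.not_mem_nil, not_false_eq_true,
      forall_const]
    rw [eq_comm, Set.ext_iff]
  | cons p l ih =>
    simp only [tot, Prog.sem]
    constructor
    · rintro ⟨u, hu, h⟩ q hq
      rw [ih] at h
      rw [List.mem_cons, not_or] at hq
      rw [← h q hq.2]
      rcases hu with rfl | rfl
      · simp [hq.1]
      · simp [hq.1]
    · intro h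
      by_cases hp : p ∈ t
      · refine ⟨s ∪ {p}, Or.inl rfl, (ih _).2 fun q hq => ?_⟩
        by_cases hqp : q = p
        · subst hqp; simp [hp]
        · have := h q (by simp [hqp, hq])
          simp [hqp, this]
      · refine ⟨s \ {p}, Or.inr rfl, (ih _).2 fun q hq => ?_⟩
        by_cases hqp : q = p
        · subst hqp; simp [hp]
        · have := h q (by simp [hqp, hq])
          simp [hqp, this]

variable [Fintype V]

/-- The total relation. -/
noncomputable def U (V : Type) [Fintype V] : Prog V := tot (Finset.univ : Finset V).toList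

theorem U_sem (s t : Set V) : (U V).sem s t := by
  unfold U
  rw [tot_sem]
  intro p hp
  simp at hp

theorem U_len : (U V).len = 12 * Fintype.card V + 2 := by
  unfold U
  rw [tot_len, Finset.length_toList, Finset.card_univ]

/-- The relation that holds of `(s, t)` iff the variable `x` has the value `b`. -/
noncomputable def lit (x : V ⊕ V) (b : Bool) : Prog V :=
  match x, b with
  | Sum.inl p, true => Prog.comp (Prog.test (Fml.var p)) (U V)
  | Sum.inl p, false => Prog.comp (Prog.test (Fml.neg (Fml.var p))) (U V)
  | Sum.inr p, true => Prog.comp (U V) (Prog.test (Fml.var p))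
  | Sum.inr p, false => Prog.comp (U V) (Prog.test (Fml.neg (Fml.var p)))

theorem lit_sem (x : V ⊕ V) (b : Bool) (s t : Set V) :
    (lit x b).sem s t ↔ (val s t x ↔ b = true) := by
  rcases x with p | p <;> cases b
  · simp only [lit, Prog.sem, Fml.holds, val]
    constructor
    · rintro ⟨u, ⟨rfl, h⟩, -⟩
      simpa using h
    · intro h
      exact ⟨s, ⟨rfl, by simpa using h⟩, U_sem _ _⟩
  · simp only [lit, Prog.sem, Fml.holds, val]
    constructor
    · rintro ⟨u, ⟨rfl, h⟩, -⟩
      simpa using h
    · intro h
      exact ⟨s, ⟨rfl, by simpa using h⟩, U_sem _ _⟩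
  · simp only [lit, Prog.sem, Fml.holds, val]
    constructor
    · rintro ⟨u, -, rfl, h⟩
      simpa using h
    · intro h
      exact ⟨t, U_sem _ _, rfl, by simpa using h⟩
  · simp only [lit, Prog.sem, Fml.holds, val]
    constructor
    · rintro ⟨u, -, rfl, h⟩
      simpa using h
    · intro h
      exact ⟨t, U_sem _ _, rfl, by simpa using h⟩

theorem lit_len (x : V ⊕ V) (b : Bool) : (lit x b).len ≤ 12 * Fintype.card V + 8 := by
  rcases x with p | p <;> cases b <;> simp only [lit, Prog.len, Fml.len, U_len] <;> omega

/-- The empty relation. -/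
def emp : Prog V := Prog.test Fml.fls

/-- The union of a list of programs. -/
def bigU : List (Prog V) → Prog V
  | [] => emp
  | a :: l => Prog.union a (bigU l)

omit [Fintype V] in
theorem emp_sem (s t : Set V) : ¬ (emp : Prog V).sem s t := by
  simp [emp, Prog.sem, Fml.holds]

omit [Fintype V] in
theorem bigU_sem (l : List (Prog V)) (s t : Set V) :
    (bigU l).sem s t ↔ ∃ a ∈ l, a.sem s t := by
  induction l with
  | nil => simp [bigU, emp_sem]
  | cons a l ih => simp [bigU, Prog.sem, ih]

omit [Fintype V] in
theorem bigU_len (l : List (Prog V)) (B : ℕ) (h : ∀ a ∈ l, a.len ≤ B) :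
    (bigU l).len ≤ l.length * (B + 3) + 2 := by
  induction l with
  | nil => simp [bigU, emp, Prog.len, Fml.len]
  | cons a l ih =>
    have h1 := h a (by simp)
    have h2 := ih fun b hb => h b (by simp [hb])
    simp only [bigU, Prog.len, List.length_cons]
    have : (l.length + 1) * (B + 3) = l.length * (B + 3) + (B + 3) := by ring
    omega

/-! ## Paths in a diagram -/

open Classical in
/-- The successor of a node for given states; a terminal is its own successor. -/
noncomputable def BDD.next (D : BDD V) (s t : Set V) (i : Fin D.size) : Fin D.size :=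
  match D.node i with
  | Sum.inl _ => i
  | Sum.inr (x, l, h) => if val s t x then h else l

omit [Fintype V] in
theorem accepts_iff (D : BDD V) (s t : Set V) (i : Fin D.size) :
    D.Accepts (val s t) i ↔ ∃ c : ℕ, D.node ((D.next s t)^[c] i) = Sum.inl true := by
  constructor
  · intro h
    induction h with
    | leaf i h => exact ⟨0, h⟩
    | low i x l h h1 h2 _ ih =>
      obtain ⟨c, hc⟩ := ih
      refine ⟨c + 1, ?_⟩
      rw [Function.iterate_succ_apply]
      have : D.next s t i = l := by
        unfold BDD.next; rw [h1]; simp only [if_neg h2]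
      rwa [this]
    | high i x l h h1 h2 _ ih =>
      obtain ⟨c, hc⟩ := ih
      refine ⟨c + 1, ?_⟩
      rw [Function.iterate_succ_apply]
      have : D.next s t i = h := by
        unfold BDD.next; rw [h1]; simp only [if_pos h2]
      rwa [this]
  · rintro ⟨c, hc⟩
    induction c generalizing i with
    | zero => exact BDD.Accepts.leaf i hc
    | succ c ih =>
      rw [Function.iterate_succ_apply] at hc
      have h1 := ih _ hc
      rcases hn : D.node i with b | ⟨x, l, h⟩
      · have : D.next s t i = i := by unfold BDD.next; rw [hn]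
        rwa [this] at h1
      · by_cases hx : val s t x
        · have : D.next s t i = h := by
            unfold BDD.next; rw [hn]; simp only [if_pos hx]
          rw [this] at h1
          exact BDD.Accepts.high i x l h hn hx h1
        · have : D.next s t i = l := by
            unfold BDD.next; rw [hn]; simp only [if_neg hx]
          rw [this] at h1
          exact BDD.Accepts.low i x l h hn hx h1

omit [Fintype V] in
theorem short_path (D : BDD V) (s t : Set V) (i : Fin D.size)
    (h : ∃ c : ℕ, D.node ((D.next s t)^[c] i) = Sum.inl true) :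
    ∃ c < D.size, D.node ((D.next s t)^[c] i) = Sum.inl true := by
  classical
  refine ⟨Nat.find h, ?_, Nat.find_spec h⟩
  set m := Nat.find h with hm
  have hinj : Function.Injective (fun c : Fin (m + 1) => (D.next s t)^[c] i) := by
    have key : ∀ a b : ℕ, a < b → b ≤ m → (D.next s t)^[a] i ≠ (D.next s t)^[b] i := by
      intro a b hab hb heq
      have h1 : (D.next s t)^[m - b + a] i = (D.next s t)^[m] i := by
        have h2 : m = m - b + b := by omega
        conv_rhs => rw [h2]
        rw [Function.iterate_add_apply, Function.iterate_add_apply, heq]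
      have h3 : D.node ((D.next s t)^[m - b + a] i) = Sum.inl true := by
        rw [h1]; exact Nat.find_spec h
      exact Nat.find_min h (by omega) h3
    intro a b hab
    by_contra hne
    have hne' : (a : ℕ) ≠ b := fun h => hne (Fin.ext h)
    rcases lt_or_gt_of_ne hne' with h1 | h1
    · exact key a b h1 (by omega) hab
    · exact key b a h1 (by omega) hab.symm
  have := Fintype.card_le_of_injective _ hinj
  simp only [Fintype.card_fin] at this
  omega

/-- One step (or none) from `i` to `j`. -/
noncomputable def E (D : BDD V) (i j : Fin D.size) : Prog V :=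
  Prog.union (if i = j then U V else emp)
    (match D.node i with
      | Sum.inl _ => emp
      | Sum.inr (x, l, h) => Prog.union (if l = j then lit x false else emp)
          (if h = j then lit x true else emp))

theorem E_sem (D : BDD V) (i j : Fin D.size) (s t : Set V) :
    (E D i j).sem s t ↔ (i = j ∨ D.next s t i = j) := by
  have h1 : (if i = j then U V else emp : Prog V).sem s t ↔ i = j := by
    split_ifs with h
    · simp [h, U_sem]
    · simp [h, emp_sem]
  simp only [E, Prog.sem, h1]
  unfold BDD.next
  rcases hn : D.node i with b | ⟨x, l, h⟩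
  · simp [emp_sem]
  · simp only [Prog.sem]
    have h2 : (if l = j then lit x false else emp : Prog V).sem s t ↔ (l = j ∧ ¬ val s t x) := by
      split_ifs with h
      · simp [h, lit_sem]
      · simp [h, emp_sem]
    have h3 : (if h = j then lit x true else emp : Prog V).sem s t ↔ (h = j ∧ val s t x) := by
      split_ifs with h
      · simp [h, lit_sem]
      · simp [h, emp_sem]
    rw [h2, h3]
    by_cases hx : val s t x
    · simp [hx]
    · simp [hx]

theorem E_len (D : BDD V) (i j : Fin D.size) : (E D i j).len ≤ 40 * (Fintype.card V + 1) := by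
  have hu := U_len (V := V)
  have he : (emp : Prog V).len = 2 := rfl
  have h1 : (if i = j then U V else emp : Prog V).len ≤ 12 * Fintype.card V + 2 := by
    split_ifs
    · omega
    · omega
  simp only [E, Prog.len]
  rcases hn : D.node i with b | ⟨x, l, h⟩
  · simp only [he]; omega
  · simp only [Prog.len]
    have h2 : (if l = j then lit x false else emp : Prog V).len ≤ 12 * Fintype.card V + 8 := by
      split_ifs
      · exact lit_len _ _
      · omega
    have h3 : (if h = j then lit x true else emp : Prog V).len ≤ 12 * Fintype.card V + 8 := by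
      split_ifs
      · exact lit_len _ _
      · omega
    omega

/-- At most `2 ^ k` steps from `i` to `j`. -/
noncomputable def R (D : BDD V) : ℕ → Fin D.size → Fin D.size → Prog V
  | 0, i, j => E D i j
  | k + 1, i, j => bigU ((List.finRange D.size).map fun m => Prog.inter (R D k i m) (R D k m j))

theorem R_sem (D : BDD V) (k : ℕ) (i j : Fin D.size) (s t : Set V) :
    (R D k i j).sem s t ↔ ∃ c ≤ 2 ^ k, (D.next s t)^[c] i = j := by
  induction k generalizing i j with
  | zero =>
    rw [R, E_sem]
    constructor
    · rintro (h | h)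
      · exact ⟨0, by omega, h⟩
      · exact ⟨1, by omega, h⟩
    · rintro ⟨c, hc, h⟩
      have : c = 0 ∨ c = 1 := by simp at hc; omega
      rcases this with rfl | rfl
      · exact Or.inl h
      · exact Or.inr h
  | succ k ih =>
    simp only [R, bigU_sem, List.mem_map, List.mem_finRange, true_and, exists_exists_eq_and,
      Prog.sem, ih]
    constructor
    · rintro ⟨m, ⟨c, hc, h1⟩, c', hc', h2⟩
      refine ⟨c' + c, by rw [pow_succ]; omega, ?_⟩
      rw [Function.iterate_add_apply, h1, h2]
    · rintro ⟨c, hc, h⟩
      rw [pow_succ] at hc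
      refine ⟨(D.next s t)^[min c (2 ^ k)] i, ⟨min c (2 ^ k), min_le_right _ _, rfl⟩,
        c - min c (2 ^ k), by omega, ?_⟩
      rw [← Function.iterate_add_apply]
      have : c - min c (2 ^ k) + min c (2 ^ k) = c := by omega
      rw [this]
      exact h

theorem R_len (D : BDD V) (k : ℕ) (i j : Fin D.size) :
    (R D k i j).len ≤ (14 * D.size) ^ k * (40 * (Fintype.card V + 1)) := by
  have hn : 0 < D.size := lt_of_le_of_lt (Nat.zero_le _) i.2
  induction k generalizing i j with
  | zero => simpa [R] using E_len D i j
  | succ k ih =>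
    rw [R]
    set B := (14 * D.size) ^ k * (40 * (Fintype.card V + 1)) with hB
    have hB1 : 1 ≤ B := by
      rw [hB]
      exact Nat.one_le_iff_ne_zero.2 (by positivity)
    have h1 := bigU_len ((List.finRange D.size).map fun m => Prog.inter (R D k i m) (R D k m j))
      (2 * B + 3) (by
        intro a ha
        obtain ⟨m, -, rfl⟩ := List.mem_map.1 ha
        have h2 := ih i m
        have h3 := ih m j
        simp only [Prog.len]
        omega)
    rw [List.length_map, List.length_finRange] at h1
    refine h1.trans ?_
    have e : (14 * D.size) ^ (k + 1) * (40 * (Fintype.card V + 1)) = 14 * D.size * B := by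
      rw [hB, pow_succ]; ring
    rw [e]
    nlinarith

open Classical in
/-- The translation. -/
noncomputable def tr (D : BDD V) : Prog V :=
  bigU ((List.finRange D.size).map fun j =>
    if D.node j = Sum.inl true then R D (Nat.clog 2 D.size) D.root j else emp)

open Classical in
theorem tr_sem (D : BDD V) (s t : Set V) : (tr D).sem s t ↔ D.rel s t := by
  unfold BDD.rel
  rw [accepts_iff]
  simp only [tr, bigU_sem, List.mem_map, List.mem_finRange, true_and, exists_exists_eq_and]
  constructor
  · rintro ⟨j, hj⟩
    split_ifs at hj with h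
    · rw [R_sem] at hj
      obtain ⟨c, -, hc⟩ := hj
      exact ⟨c, by rw [hc]; exact h⟩
    · exact absurd hj (emp_sem _ _)
  · intro h
    obtain ⟨c, hc, h1⟩ := short_path D s t D.root h
    refine ⟨(D.next s t)^[c] D.root, ?_⟩
    rw [if_pos h1, R_sem]
    exact ⟨c, hc.le.trans (Nat.le_pow_clog (by norm_num) _), rfl⟩

open Classical in
theorem tr_len (D : BDD V) :
    (tr D).len ≤ 40 * (Fintype.card V + 1) * (14 * D.size) ^ (Nat.clog 2 D.size + 1) := by
  have hn : 0 < D.size := lt_of_le_of_lt (Nat.zero_le _) D.root.2
  set B := (14 * D.size) ^ (Nat.clog 2 D.size) * (40 * (Fintype.card V + 1)) with hB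
  have hB2 : 2 ≤ B := by
    have h1 : 1 ≤ (14 * D.size) ^ (Nat.clog 2 D.size) := Nat.one_le_iff_ne_zero.2 (by positivity)
    rw [hB]
    nlinarith
  have h1 := bigU_len ((List.finRange D.size).map fun j =>
    if D.node j = Sum.inl true then R D (Nat.clog 2 D.size) D.root j else emp) B (by
      intro a ha
      obtain ⟨j, -, rfl⟩ := List.mem_map.1 ha
      split_ifs
      · exact R_len D _ _ _
      · exact hB2)
  rw [List.length_map, List.length_finRange] at h1
  refine h1.trans ?_
  have e : 40 * (Fintype.card V + 1) * (14 * D.size) ^ (Nat.clog 2 D.size + 1) =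
      14 * D.size * B := by
    rw [hB, pow_succ]; ring
  rw [e]
  nlinarith

end

/-! ## Asymptotics -/

theorem asymp (k : ℕ) (c δ : ℝ) (hc : 0 < c) (hδ : 0 < δ) :
    ∃ N₀ : ℕ, ∀ N : ℕ, N₀ ≤ N →
      ((40 * (N ^ k + 1) * (14 * N) ^ (Nat.clog 2 N + 1) : ℕ) : ℝ) < 2 ^ (c * (N : ℝ) ^ δ) := by
  have hl2 : (0.6931471803 : ℝ) < Real.log 2 := Real.log_two_gt_d9
  have hC : 0 < c * Real.log 2 / (2 * ((k : ℝ) + 11)) := by positivity
  have hlo := (isLittleO_log_rpow_rpow_atTop 2 hδ).comp_tendsto tendsto_natCast_atTop_atTop
    (α := ℝ)
  have hb := hlo.bound hC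
  obtain ⟨N₁, hN₁⟩ := eventually_atTop.1 hb
  refine ⟨max N₁ 14, fun N hN => ?_⟩
  have h1 := hN₁ N ((le_max_left _ _).trans hN)
  have h14 : 14 ≤ N := (le_max_right _ _).trans hN
  have hNR : (14 : ℝ) ≤ N := by exact_mod_cast h14
  have hN0 : (0 : ℝ) < N := by linarith
  set L := Real.log N with hL
  have hL1 : 1 ≤ L := by
    rw [hL, Real.le_log_iff_exp_le hN0]
    have := Real.exp_one_lt_d9
    linarith
  simp only [Function.comp_apply] at h1
  rw [Real.norm_of_nonneg (by positivity), Real.norm_of_nonneg (by positivity)] at h1
  have h2 : L ^ (2 : ℝ) = L ^ 2 := by norm_cast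
  rw [← hL, h2] at h1
  -- the upper bound
  have hnat : 40 * (N ^ k + 1) * (14 * N) ^ (Nat.clog 2 N + 1) ≤
      N ^ (k + 3 + 2 * (Nat.clog 2 N + 1)) := by
    have e1 : 40 ≤ N ^ 2 := by nlinarith
    have e2 : N ^ k + 1 ≤ N ^ (k + 1) := by
      have : 1 ≤ N ^ k := Nat.one_le_pow _ _ (by omega)
      rw [pow_succ]
      nlinarith
    have e3 : 14 * N ≤ N ^ 2 := by nlinarith
    calc 40 * (N ^ k + 1) * (14 * N) ^ (Nat.clog 2 N + 1) ≤
        N ^ 2 * N ^ (k + 1) * (N ^ 2) ^ (Nat.clog 2 N + 1) :=
          Nat.mul_le_mul (Nat.mul_le_mul e1 e2) (Nat.pow_le_pow_left e3 _)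
      _ = N ^ (k + 3 + 2 * (Nat.clog 2 N + 1)) := by
          rw [← pow_mul, ← pow_add, ← pow_add]
          congr 1
          ring
  have hclog : (Nat.clog 2 N : ℝ) ≤ 2 * L + 1 := by
    have e1 : ⌈Real.logb 2 N⌉₊ = Nat.clog 2 N := by
      exact_mod_cast Real.natCeil_logb_natCast 2 N
    have e2 : Real.logb 2 N ≤ 2 * L := by
      rw [Real.logb, div_le_iff₀ (by linarith)]
      rw [← hL]
      nlinarith
    have e3 : 0 ≤ Real.logb 2 N := Real.logb_nonneg (by norm_num) (by linarith)
    have e4 := Nat.ceil_lt_add_one e3
    rw [e1] at e4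
    linarith
  have hle : ((40 * (N ^ k + 1) * (14 * N) ^ (Nat.clog 2 N + 1) : ℕ) : ℝ) ≤
      Real.exp (((k : ℝ) + 11) * L ^ 2) := by
    have e1 : ((40 * (N ^ k + 1) * (14 * N) ^ (Nat.clog 2 N + 1) : ℕ) : ℝ) ≤
        (N : ℝ) ^ (k + 3 + 2 * (Nat.clog 2 N + 1)) := by exact_mod_cast hnat
    refine e1.trans ?_
    have e2 : (N : ℝ) ^ (k + 3 + 2 * (Nat.clog 2 N + 1)) =
        Real.exp (L * ((k + 3 + 2 * (Nat.clog 2 N + 1) : ℕ) : ℝ)) := by
      rw [mul_comm L _, Real.exp_nat_mul, hL, Real.exp_log hN0]
    rw [e2]
    apply Real.exp_le_exp.2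
    push_cast
    have hk : (0 : ℝ) ≤ k := Nat.cast_nonneg k
    nlinarith [mul_nonneg hk (by linarith : (0 : ℝ) ≤ L - 1), mul_nonneg (by linarith : (0 : ℝ) ≤ L)
      (by linarith : (0 : ℝ) ≤ 2 * L + 1 - Nat.clog 2 N),
      mul_nonneg (mul_nonneg hk (by linarith : (0 : ℝ) ≤ L)) (by linarith : (0 : ℝ) ≤ L - 1)]
  refine lt_of_le_of_lt hle ?_
  rw [Real.rpow_def_of_pos (by norm_num)]
  apply Real.exp_lt_exp.2
  have hNd : 0 < (N : ℝ) ^ δ := Real.rpow_pos_of_pos hN0 δ
  have hk : (0 : ℝ) < (k : ℝ) + 11 := by positivity
  calc ((k : ℝ) + 11) * L ^ 2 ≤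
      ((k : ℝ) + 11) * (c * Real.log 2 / (2 * ((k : ℝ) + 11)) * (N : ℝ) ^ δ) :=
        mul_le_mul_of_nonneg_left h1 hk.le
    _ = c * Real.log 2 / 2 * (N : ℝ) ^ δ := by field_simp
    _ < Real.log 2 * (c * (N : ℝ) ^ δ) := by
        have : 0 < c * Real.log 2 := by positivity
        nlinarith

/-! ## The dependence on the number of variables -/

/-- The variables assigned in a program. -/
def Prog.assigned {V : Type} : Prog V → List V
  | Prog.set p => [p]
  | Prog.unset p => [p]
  | Prog.test _ => []
  | Prog.union a b => a.assigned ++ b.assigned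
  | Prog.comp a b => a.assigned ++ b.assigned
  | Prog.inter a b => a.assigned ++ b.assigned

theorem assigned_len {V : Type} (a : Prog V) : a.assigned.length ≤ a.len := by
  induction a with
  | set p => simp [Prog.assigned, Prog.len]
  | unset p => simp [Prog.assigned, Prog.len]
  | test b => simp [Prog.assigned]
  | union a b iha ihb => simp only [Prog.assigned, Prog.len, List.length_append]; omega
  | comp a b iha ihb => simp only [Prog.assigned, Prog.len, List.length_append]; omega
  | inter a b iha ihb => simp only [Prog.assigned, Prog.len, List.length_append]; omega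

theorem not_assigned {V : Type} (a : Prog V) (p : V) (hp : p ∉ a.assigned) (s t : Set V)
    (h : a.sem s t) : p ∈ s ↔ p ∈ t := by
  induction a generalizing s t with
  | set q =>
    simp only [Prog.assigned, List.mem_singleton] at hp
    simp only [Prog.sem] at h
    subst h
    simp [hp]
  | unset q =>
    simp only [Prog.assigned, List.mem_singleton] at hp
    simp only [Prog.sem] at h
    subst h
    simp [hp]
  | test b =>
    simp only [Prog.sem] at h
    rw [h.1]
  | union a b iha ihb =>
    simp only [Prog.assigned, List.mem_append, not_or] at hp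
    rcases h with h | h
    · exact iha hp.1 s t h
    · exact ihb hp.2 s t h
  | comp a b iha ihb =>
    simp only [Prog.assigned, List.mem_append, not_or] at hp
    obtain ⟨u, h1, h2⟩ := h
    exact (iha hp.1 s u h1).trans (ihb hp.2 u t h2)
  | inter a b iha ihb =>
    simp only [Prog.assigned, List.mem_append, not_or] at hp
    exact iha hp.1 s t h.1

/-- The diagram with one node, the terminal `⊤`. -/
noncomputable def one (V : Type) [Fintype V] : BDD V where
  size := 1
  node := fun _ => Sum.inl true
  root := 0
  ord := fun x => (Fintype.equivFin (V ⊕ V) x : ℕ)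
  ord_inj := fun x y h => (Fintype.equivFin (V ⊕ V)).injective (Fin.ext h)
  ordered := fun i x l h hn => by simp at hn

/-- **Binary decision diagrams have mental programs of quasi-polynomial length.**

There is a correct translation `τ` from ordered binary decision diagrams to mental programs such that,
for a diagram with `N` nodes over `V ∪ V'`, the length of the program is at most
`40 (|V| + 1) (14 N) ^ (⌈log₂ N⌉ + 1)`. So for all `k` and all `c, δ > 0` the length is less than
`2 ^ (c N ^ δ)` for all diagrams with `N ≥ N₀` nodes over at most `N ^ k` variables.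

The number `|V|` cannot be left out: the diagram with the single node `⊤` over `V` represents a
relation for which every mental program has length at least `|V|`. -/
theorem result :
    (∃ τ : (V : Type) → [Fintype V] → BDD V → Prog V,
      (∀ (V : Type) [Fintype V] (D : BDD V) (s t : Set V), (τ V D).sem s t ↔ D.rel s t) ∧
      (∀ (V : Type) [Fintype V] (D : BDD V), (τ V D).len ≤
        40 * (Fintype.card V + 1) * (14 * D.size) ^ (Nat.clog 2 D.size + 1)) ∧
      (∀ (k : ℕ) (c δ : ℝ), 0 < c → 0 < δ → ∃ N₀ : ℕ, ∀ (V : Type) [Fintype V] (D : BDD V),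
        N₀ ≤ D.size → Fintype.card V ≤ D.size ^ k →
          ((τ V D).len : ℝ) < 2 ^ (c * (D.size : ℝ) ^ δ))) ∧
    (∀ (V : Type) [Fintype V], ∃ D : BDD V, D.size = 1 ∧
      ∀ π : Prog V, (∀ s t, π.sem s t ↔ D.rel s t) → Fintype.card V ≤ π.len) := by
  refine ⟨⟨fun V _ D => tr D, fun V _ D s t => tr_sem D s t, fun V _ D => tr_len D, ?_⟩, ?_⟩
  · intro k c δ hc hδ
    obtain ⟨N₀, hN₀⟩ := asymp k c δ hc hδ
    refine ⟨N₀, fun V _ D hD hV => lt_of_le_of_lt ?_ (hN₀ D.size hD)⟩
    have h1 := tr_len D
    have h2 : 40 * (Fintype.card V + 1) * (14 * D.size) ^ (Nat.clog 2 D.size + 1) ≤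
        40 * (D.size ^ k + 1) * (14 * D.size) ^ (Nat.clog 2 D.size + 1) :=
      Nat.mul_le_mul_right _ (Nat.mul_le_mul_left _ (by omega))
    exact_mod_cast h1.trans h2
  · intro V _
    classical
    refine ⟨one V, rfl, fun π hπ => ?_⟩
    have h1 : ∀ p : V, p ∈ π.assigned := by
      intro p
      by_contra hp
      have h2 : (one V).rel (∅ : Set V) {p} := BDD.Accepts.leaf _ rfl
      have h3 := not_assigned π p hp _ _ ((hπ _ _).2 h2)
      simp at h3
    have h4 : Fintype.card V ≤ π.assigned.length := by
      rw [← Finset.card_univ]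
      have : (Finset.univ : Finset V) ⊆ π.assigned.toFinset := fun p _ =>
        List.mem_toFinset.2 (h1 p)
      exact (Finset.card_le_card this).trans (List.toFinset_card_le _)
    exact h4.trans (assigned_len π)

end Pool.Agent.Results.MP_811ee8_lc.QuasiPolynomialTranslation
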